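import Mathlib

set_option autoImplicit false

namespace Pool.Agent.Results.MP_231ef3_gt.Counter

open Set Topology Filter Ordinal

abbrev T : Type 1 := Iic (ω_ 1 : Ordinal.{0}) × Iic (ω : Ordinal.{0})

def Usc {Y X : Type 1} [TopologicalSpace Y] [TopologicalSpace X] (F : Y → Set X) : Prop :=
  (∀ y, (F y).Nonempty ∧ IsClosed (F y)) ∧ ∀ U, IsOpen U → IsOpen {y | F y ⊆ U}

theorem result : ∃ A : Set T, IsClosed A ∧ ∃ f : A → Set T, Usc f ∧
    ¬ ∃ F : T → Set T, Usc F ∧ ∀ a : A, F a = f a := by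
  let w₁ : Iic (ω_ 1 : Ordinal.{0}) := ⟨_, self_mem_Iic⟩
  let w : Iic (ω : Ordinal.{0}) := ⟨_, self_mem_Iic⟩
  let a : T := (w₁, w)
  let b : T := (w₁, ⟨0, by simp⟩)
  have hab : a ≠ b := fun h => omega0_ne_zero (congrArg (fun x : T => x.2.1) h)
  have c1 : IsClosed {x : T | x.1 = w₁} := isClosed_eq continuous_fst continuous_const
  have c2 : IsClosed {x : T | x.2 = w} := isClosed_eq continuous_snd continuous_const
  refine ⟨{x | x.1 = w₁} ∪ {x | x.2 = w}, c1.union c2,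
    fun x => {y | (y = a ∧ x.1.1 = w₁) ∨ (y = b ∧ x.1.2 = w)}, ⟨fun x => ⟨?_, ?_⟩, fun U hU => ?_⟩, ?_⟩
  · exact x.2.elim (fun h => ⟨a, Or.inl ⟨rfl, h⟩⟩) fun h => ⟨b, Or.inr ⟨rfl, h⟩⟩
  · exact ((finite_singleton b).insert a).subset (fun y hy => hy.imp And.left And.left) |>.isClosed
  · have : {x : ↥({x : T | x.1 = w₁} ∪ {x | x.2 = w}) |
        {y | (y = a ∧ x.1.1 = w₁) ∨ (y = b ∧ x.1.2 = w)} ⊆ U} =
        ({x | a ∈ U} ∪ Subtype.val ⁻¹' {x : T | x.1 = w₁}ᶜ) ∩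
        ({x | b ∈ U} ∪ Subtype.val ⁻¹' {x : T | x.2 = w}ᶜ) := by
      ext x
      simp only [subset_def, mem_ofPred_eq, mem_inter_iff, mem_union, mem_preimage, mem_compl_iff]
      grind
    rw [this]
    exact (isOpen_const.union (c1.isOpen_compl.preimage continuous_subtype_val)).inter
      (isOpen_const.union (c2.isOpen_compl.preimage continuous_subtype_val))
  rintro ⟨F, ⟨h1, h2⟩, h3⟩
  obtain ⟨U, V, hU, hV, ha, hb, hd⟩ := t2_separation hab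
  let e : ℕ → Iic (ω : Ordinal.{0}) := fun n => ⟨n, (natCast_lt_omega0 n).le⟩
  have h4 : ∀ n, ∃ l < w₁, ∀ x, l < x → F (x, e n) ⊆ U := by
    intro n
    have h4 : {x | F (x, e n) ⊆ U} ∈ 𝓝 w₁ := by
      refine ((h2 U hU).preimage (Continuous.prodMk_left (e n))).mem_nhds ?_
      change F _ ⊆ U
      rw [h3 ⟨(w₁, e n), Or.inl rfl⟩]
      rintro y (h | h)
      · exact h.1 ▸ ha
      · exact absurd (congrArg Subtype.val h.2) (natCast_lt_omega0 n).ne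
    obtain ⟨l, h5, h6⟩ := exists_Ioc_subset_of_mem_nhds h4 ⟨⟨0, by simp⟩, omega_pos 1⟩
    exact ⟨l, h5, fun x hx => h6 ⟨hx, x.2⟩⟩
  choose l h4 h5 using h4
  have h6 : ⨆ n, (l n).1 + 1 < ω_ 1 := iSup_lt_omega_one
    fun n => (Cardinal.isSuccLimit_omega 1).add_one_lt (h4 n)
  let x : Iic (ω_ 1 : Ordinal.{0}) := ⟨_, h6.le⟩
  have h7 : {y | F (x, y) ⊆ V} ∈ 𝓝 w := by
    refine ((h2 V hV).preimage (Continuous.prodMk_right x)).mem_nhds ?_
    change F _ ⊆ V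
    rw [h3 ⟨(x, w), Or.inr rfl⟩]
    rintro y (h | h)
    · exact absurd (congrArg Subtype.val h.2) h6.ne
    · exact h.1 ▸ hb
  obtain ⟨m, h8, h9⟩ := exists_Ioc_subset_of_mem_nhds h7 ⟨⟨0, by simp⟩, omega0_pos⟩
  obtain ⟨n, hn⟩ := lt_omega0.1 (show m.1 < ω from h8)
  obtain ⟨y, hy⟩ := (h1 (x, e (n + 1))).1
  refine disjoint_left.1 hd (h5 (n + 1) x ?_ hy) (h9 ⟨?_, (e _).2⟩ hy)
  · exact (lt_add_one (l (n + 1)).1).trans_le (Ordinal.le_iSup (fun n => (l n).1 + 1) (n + 1))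
  · change m.1 < ((n + 1 : ℕ) : Ordinal)
    rw [hn]
    exact_mod_cast n.lt_succ_self

end Pool.Agent.Results.MP_231ef3_gt.Counter
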